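import Mathlib

/-! A dense Todd pseudocomplete subgroup of a product of separable metric groups forces every
factor to be completely metrizable. -/

namespace Pool.Agent.Results.MP_5e9a16_gt.Holds

open Set Filter Topology TopologicalSpace

universe u v

/-- pseudobases -/
def Pseudobase {X : Type*} [TopologicalSpace X] (𝓑 : Set (Set X)) : Prop :=
  (∀ B ∈ 𝓑, (interior B).Nonempty) ∧ ∀ U : Set X, IsOpen U → U.Nonempty → ∃ B ∈ 𝓑, B ⊆ U

/-- Todd pseudocomplete spaces -/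
def Todd (X : Type*) [TopologicalSpace X] : Prop :=
  ∃ 𝓑 : ℕ → Set (Set X), (∀ n, Pseudobase (𝓑 n)) ∧ ∀ B : ℕ → Set X, (∀ n, B n ∈ 𝓑 n) →
    (∀ n, closure (B (n + 1)) ⊆ interior (B n)) → (⋂ n, B n).Nonempty

section
variable {G H : Type*} [TopologicalSpace G] [TopologicalSpace H]

def St (π : G → H) (W : Set G) (P : Set H) : Prop :=
  IsOpen W ∧ IsOpen P ∧ P.Nonempty ∧ P ⊆ closure (π '' W)

theorem move [RegularSpace G] {π : G → H} (hπ : Continuous π)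
    (hno : ∀ W, IsOpen W → W.Nonempty → (interior (closure (π '' W))).Nonempty)
    {𝓑 : Set (Set G)} (hB : Pseudobase 𝓑) {W : Set G} {P N : Set H} (h : St π W P)
    (hN : IsOpen N) (hN' : N.Nonempty) (hNP : N ⊆ P) :
    ∃ B ∈ 𝓑, closure B ⊆ W ∧ (∀ x ∈ B, π x ∈ N) ∧ ∃ P' ⊆ N, St π (interior B) P' := by
  obtain ⟨y, hy⟩ := hN'
  obtain ⟨_, h1, x, hx, rfl⟩ := mem_closure_iff.1 (h.2.2.2 (hNP hy)) N hN hy
  obtain ⟨C, hC, hCc, hC'⟩ := exists_mem_nhds_isClosed_subset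
    ((h.1.inter (hN.preimage hπ)).mem_nhds ⟨hx, h1⟩)
  obtain ⟨B, h2, h3⟩ := hB.2 _ isOpen_interior ⟨x, mem_interior_iff_mem_nhds.2 hC⟩
  have h4 : closure B ⊆ W ∩ π ⁻¹' N := (closure_minimal (h3.trans interior_subset) hCc).trans hC'
  refine ⟨B, h2, h4.trans inter_subset_left, fun z hz => (h4 (subset_closure hz)).2,
    N ∩ interior (closure (π '' interior B)), inter_subset_left, isOpen_interior,
    hN.inter isOpen_interior, ?_, inter_subset_right.trans interior_subset⟩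
  obtain ⟨w, hw⟩ := hno _ isOpen_interior (hB.1 B h2)
  obtain ⟨_, h5, z, hz, rfl⟩ := mem_closure_iff.1 (interior_subset hw) _ isOpen_interior hw
  exact ⟨_, (h4 (subset_closure (interior_subset hz))).2, h5⟩

variable [Group H] [IsTopologicalGroup H]

theorem shift {h : ℕ → H} (hh : ∀ V ∈ 𝓝 (1 : H), ∃ m, ∀ᶠ k in atTop, h k * (h m)⁻¹ ∈ V)
    {T O : Set H} (hT : IsOpen T) (hT' : T.Nonempty) (hO : O ∈ 𝓝 (1 : H)) :
    ∃ N, IsOpen N ∧ N.Nonempty ∧ (∀ᶠ k in atTop, ∀ x ∈ N, h k * x ∈ T) ∧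
      ∀ x ∈ N, ∀ y ∈ N, x⁻¹ * y ∈ O := by
  obtain ⟨t, ht⟩ := hT'
  have h1 : (fun p : H × H => p.1 * p.2) ⁻¹' T ∈ 𝓝 (1, t) :=
    continuous_mul.continuousAt.preimage_mem_nhds (hT.mem_nhds (by simpa using ht))
  obtain ⟨V, hV, U, hU, h2⟩ := mem_nhds_prod_iff.1 h1
  obtain ⟨m, hm⟩ := hh V hV
  have h3 : (fun p : H × H => p.1⁻¹ * p.2) ⁻¹' O ∈ 𝓝 ((h m)⁻¹ * t, (h m)⁻¹ * t) :=
    (continuous_fst.inv.mul continuous_snd).continuousAt.preimage_mem_nhds (by simpa using hO)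
  obtain ⟨A, hA, B, hB, h4⟩ := mem_nhds_prod_iff.1 h3
  have h5 : (fun x => h m * x) ⁻¹' U ∈ 𝓝 ((h m)⁻¹ * t) :=
    (continuous_const_mul _).continuousAt.preimage_mem_nhds (by simpa using hU)
  obtain ⟨N, h6, h7, h8⟩ := mem_nhds_iff.1 (inter_mem h5 (inter_mem hA hB))
  refine ⟨N, h7, ⟨_, h8⟩, hm.mono fun k hk x hx => ?_, fun x hx y hy =>
    h4 (mk_mem_prod (h6 hx).2.1 (h6 hy).2.2)⟩
  simpa using h2 (mk_mem_prod hk (h6 hx).1)

theorem conv [RegularSpace G] [FirstCountableTopology H] {π : G → H} (hπ : Continuous π)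
    (hno : ∀ W, IsOpen W → W.Nonempty → (interior (closure (π '' W))).Nonempty)
    (hd : closure (π '' univ) = univ) (hG : Todd G) {h : ℕ → H}
    (h1 : ∀ V ∈ 𝓝 (1 : H), ∃ m, ∀ᶠ k in atTop, h k * (h m)⁻¹ ∈ V)
    (h2 : ∀ V ∈ 𝓝 (1 : H), ∃ m, ∀ᶠ k in atTop, (h k)⁻¹ * (h m)⁻¹⁻¹ ∈ V) :
    ∃ a, Tendsto h atTop (𝓝 a) := by
  obtain ⟨𝓑, hB, hB'⟩ := hG
  obtain ⟨O, hO⟩ := (𝓝 (1 : H)).exists_antitone_basis
  let T := {s : (Set G × Set H) × (Set G × Set H) // St π s.1.1 s.1.2 ∧ St π s.2.1 s.2.2 ∧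
    ∀ᶠ k in atTop, ∀ x ∈ s.1.2, (h k)⁻¹ * x ∈ s.2.2}
  have step : ∀ (n : ℕ) (s : T), ∃ (s' : T) (B B' : Set G), B ∈ 𝓑 n ∧ B' ∈ 𝓑 n ∧
      closure B ⊆ s.1.1.1 ∧ closure B' ⊆ s.1.2.1 ∧ s'.1.1.1 = interior B ∧
      s'.1.2.1 = interior B' ∧ (∀ x ∈ B, ∀ y ∈ s'.1.1.2, (π x)⁻¹ * y ∈ O n) ∧
      ∀ x ∈ B', ∀ᶠ k in atTop, h k * π x ∈ s.1.1.2 := by
    rintro n ⟨⟨⟨W, P⟩, ⟨W', P'⟩⟩, a1, a2, a3⟩
    obtain ⟨N', b1, b2, b3, -⟩ := shift h1 a1.2.1 a1.2.2.1 univ_mem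
    obtain ⟨B', c1, c2, c3, Q', c4, c5⟩ := move hπ hno (hB n) a2 b1 b2 fun x hx => by
      obtain ⟨k, e1, e2⟩ := (a3.and b3).exists
      simpa using e1 _ (e2 x hx)
    obtain ⟨N, d1, d2, d3, d4⟩ := shift (h := fun k => (h k)⁻¹) h2 c5.2.1 c5.2.2.1 (hO.mem n)
    obtain ⟨B, e1, e2, e3, Q, e4, e5⟩ := move hπ hno (hB n) a1 d1 d2 fun x hx => by
      obtain ⟨k, e1, e2⟩ := (b3.and d3).exists
      simpa using e1 _ (c4 (e2 x hx))
    exact ⟨⟨((interior B, Q), (interior B', Q')), e5, c5, d3.mono fun k hk x hx => hk x (e4 hx)⟩,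
      B, B', e1, c1, e2, c2, rfl, rfl, fun x hx y hy => d4 _ (e3 x hx) _ (e4 hy),
      fun x hx => b3.mono fun k hk => hk _ (c3 x hx)⟩
  choose nx B B' a1 a2 a3 a4 a5 a6 a7 a8 using step
  have h0 : St π univ univ := ⟨isOpen_univ, isOpen_univ, univ_nonempty, hd.ge⟩
  let s : ℕ → T := fun n => Nat.rec ⟨((univ, univ), (univ, univ)), h0, h0,
    Eventually.of_forall fun _ _ _ => trivial⟩ nx n
  obtain ⟨g, hg⟩ := hB' (fun n => B n (s n)) (fun n => a1 _ _) fun n =>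
    (a3 (n + 1) (s (n + 1))).trans (a5 n (s n)).le
  obtain ⟨g', hg'⟩ := hB' (fun n => B' n (s n)) (fun n => a2 _ _) fun n =>
    (a4 (n + 1) (s (n + 1))).trans (a6 n (s n)).le
  have h3 : Tendsto (fun k => (π g)⁻¹ * (h k * π g')) atTop (𝓝 1) :=
    hO.1.tendsto_right_iff.2 fun n _ =>
      (a8 (n + 1) (s (n + 1)) g' (mem_iInter.1 hg' (n + 1))).mono fun k hk =>
        a7 n (s n) g (mem_iInter.1 hg n) _ hk
  exact ⟨_, by simpa [mul_assoc] using (h3.const_mul (π g)).mul_const (π g')⁻¹⟩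

end

theorem result (I : Type u) (H : I → Type v) [∀ i, Group (H i)] [∀ i, TopologicalSpace (H i)]
    [∀ i, IsTopologicalGroup (H i)] [∀ i, MetrizableSpace (H i)] [∀ i, SeparableSpace (H i)]
    (G : Subgroup (∀ i, H i)) (hd : Dense (G : Set (∀ i, H i))) (hG : Todd G) (i : I) :
    IsCompletelyMetrizableSpace (H i) := by
  have hs : ∀ O : Set (∀ i, H i), IsOpen O → (fun x => x i) '' O ⊆
      closure ((fun x : G => x.1 i) '' (Subtype.val ⁻¹' O)) := fun O hO => by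
    refine (image_mono (hd.open_subset_closure_inter hO)).trans
      ((image_closure_subset_closure_image (continuous_apply i)).trans (closure_mono ?_))
    rintro _ ⟨x, hx, rfl⟩
    exact ⟨⟨x, hx.2⟩, hx.1, rfl⟩
  have key := fun h => conv (π := fun x : G => x.1 i) (h := h)
    ((continuous_apply i).comp continuous_subtype_val) (fun W hW ⟨x, hx⟩ => by
      obtain ⟨O, hO, rfl⟩ := isOpen_induced_iff.1 hW
      exact ⟨_, interior_maximal (hs O hO) (isOpenMap_eval i O hO) ⟨x.1, hx, rfl⟩⟩)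
    (eq_univ_of_forall fun y => hs univ isOpen_univ (by
      obtain ⟨x, hx⟩ := Function.surjective_eval (β := H) i y
      exact ⟨x, trivial, hx⟩)) hG
  let U : UniformSpace (H i) := (IsTopologicalGroup.rightUniformSpace (H i) ⊓
    IsTopologicalGroup.leftUniformSpace (H i)).replaceTopology (inf_idem _).symm
  have hU : uniformity (H i) = comap (fun p : H i × H i => p.2 * p.1⁻¹) (𝓝 1) ⊓
      comap (fun p : H i × H i => p.1⁻¹ * p.2) (𝓝 1) := rfl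
  have : (uniformity (H i)).IsCountablyGenerated := by
    rw [hU]
    infer_instance
  have : CompleteSpace (H i) := UniformSpace.complete_of_cauchySeq_tendsto fun h hh => by
    rw [cauchySeq_iff] at hh
    refine key h (fun V hV => ?_) fun V hV => ?_
    · obtain ⟨m, hm⟩ := hh _ (hU ▸ mem_inf_of_left (preimage_mem_comap hV))
      exact ⟨m, (eventually_ge_atTop m).mono fun k hk => hm m le_rfl k hk⟩
    · obtain ⟨m, hm⟩ := hh _ (hU ▸ mem_inf_of_right (preimage_mem_comap hV))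
      exact ⟨m, (eventually_ge_atTop m).mono fun k hk => by simpa using hm k hk m le_rfl⟩
  exact IsCompletelyMetrizableSpace.of_completeSpace_metrizable

end Pool.Agent.Results.MP_5e9a16_gt.Holds
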